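import Pool.Agent.H11.NY.Targets

set_option autoImplicit false

open Equiv (Perm)

namespace Pool.Agent.H86.NY.CD

open Pool.Agent.H11.NY

theorem pla {Ω ι : Type} [Fintype Ω] [DecidableEq Ω] [Fintype ι] (f g : ι ↪ Ω)
    (hcard : Fintype.card ι + 2 ≤ Fintype.card Ω) :
    ∃ w ∈ alternatingGroup Ω, ∀ i, w (f i) = g i := by
  classical
  let e : {x // x ∈ Set.range f} ≃ {x // x ∈ Set.range g} :=
    (Equiv.ofInjective f f.injective).symm.trans (Equiv.ofInjective g g.injective)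
  let w₀ : Perm Ω := e.extendSubtype
  have hw₀ : ∀ i, w₀ (f i) = g i := by
    intro i
    have h1 : f i ∈ Set.range f := ⟨i, rfl⟩
    show e.extendSubtype (f i) = g i
    rw [Equiv.extendSubtype_apply_of_mem e (f i) h1]
    have h2 : (Equiv.ofInjective f f.injective).symm ⟨f i, h1⟩ = i :=
      Equiv.ofInjective_symm_apply f.injective i
    show ((Equiv.ofInjective g g.injective) ((Equiv.ofInjective f f.injective).symm ⟨f i, h1⟩) : Ω)
      = g i
    rw [h2]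
    rfl
  by_cases hs : Equiv.Perm.sign w₀ = 1
  · exact ⟨w₀, Equiv.Perm.mem_alternatingGroup.mpr hs, hw₀⟩
  · have hs' : Equiv.Perm.sign w₀ = -1 := by
      rcases Int.units_eq_one_or (Equiv.Perm.sign w₀) with h | h
      · exact absurd h hs
      · exact h
    have hrange : (Finset.univ.map g).card = Fintype.card ι := by
      rw [Finset.card_map, Finset.card_univ]
    have hcompl : 1 < ((Finset.univ.map g)ᶜ : Finset Ω).card := by
      rw [Finset.card_compl, hrange]; omega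
    obtain ⟨x, hx, y, hy, hxy⟩ := Finset.one_lt_card.mp hcompl
    rw [Finset.mem_compl] at hx hy
    refine ⟨Equiv.swap x y * w₀, ?_, ?_⟩
    · rw [Equiv.Perm.mem_alternatingGroup, Equiv.Perm.sign_mul, Equiv.Perm.sign_swap hxy, hs']
      rfl
    · intro i
      rw [Equiv.Perm.mul_apply, hw₀ i]
      apply Equiv.swap_apply_of_ne_of_ne
      · intro h
        exact hx (Finset.mem_map.mpr ⟨i, Finset.mem_univ i, h⟩)
      · intro h
        exact hy (Finset.mem_map.mpr ⟨i, Finset.mem_univ i, h⟩)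

/-- every point of the support of a `q`-cycle is a power applied to a base point -/
theorem cyc_rep {Ω : Type} [Fintype Ω] [DecidableEq Ω] {s : Perm Ω} {q : ℕ} (hs : s.IsCycle)
    (hq : s.support.card = q) {x : Ω} (hx : s x ≠ x) :
    (∀ y, s y ≠ y ↔ ∃ i < q, (s ^ i) x = y) ∧
      (∀ i j, i < q → j < q → (s ^ i) x = (s ^ j) x → i = j) ∧ (s ^ q) x = x := by
  have hord : orderOf s = q := by rw [hs.orderOf, hq]
  have hpos : 0 < q := by
    rw [← hord]; exact orderOf_pos s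
  have hsq : s ^ q = 1 := by rw [← hord]; exact pow_orderOf_eq_one s
  refine ⟨?_, ?_, by rw [hsq]; rfl⟩
  · intro y
    constructor
    · intro hy
      obtain ⟨i, hi⟩ := hs.exists_pow_eq hx hy
      refine ⟨i % q, Nat.mod_lt _ hpos, ?_⟩
      rw [← hi]
      conv_rhs => rw [← Nat.mod_add_div i q, pow_add, pow_mul, hsq, one_pow, mul_one]
    · rintro ⟨i, -, rfl⟩
      intro h
      apply hx
      have h1 : s ((s ^ i) x) = (s ^ i) (s x) := by
        rw [← Equiv.Perm.mul_apply, ← Equiv.Perm.mul_apply, ← pow_succ, ← pow_succ']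
      rw [h1] at h
      exact (s ^ i).injective h
  · intro i j hi hj h
    have h1 : s ^ i = s ^ j := by
      ext y
      by_cases hy : s y = y
      · have h2 : ∀ k : ℕ, (s ^ k) y = y := fun k => Equiv.Perm.pow_apply_eq_self_of_apply_eq_self hy k
        rw [h2, h2]
      · obtain ⟨k, hk⟩ := hs.exists_pow_eq hx hy
        rw [← hk, ← Equiv.Perm.mul_apply, ← Equiv.Perm.mul_apply, ← pow_add, ← pow_add, add_comm i,
          add_comm j, pow_add, pow_add, Equiv.Perm.mul_apply, Equiv.Perm.mul_apply, h]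
    exact pow_injOn_Iio_orderOf (by rw [hord]; exact hi) (by rw [hord]; exact hj) h1

theorem conj_cyc {Ω : Type} [Fintype Ω] [DecidableEq Ω] {s s' w : Perm Ω} {q : ℕ}
    (hs : s.IsCycle) (hq : s.support.card = q) (hs' : s'.IsCycle) (hq' : s'.support.card = q)
    {x x' : Ω} (hx : s x ≠ x) (hx' : s' x' ≠ x')
    (hw : ∀ i < q, w ((s ^ i) x) = (s' ^ i) x') : w * s * w⁻¹ = s' := by
  obtain ⟨h1, h2, h3⟩ := cyc_rep hs hq hx
  obtain ⟨h1', h2', h3'⟩ := cyc_rep hs' hq' hx'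
  have hpos : 0 < q := by
    rw [← hq, hs.orderOf.symm]; exact orderOf_pos s
  have key : ∀ z, w (s z) = s' (w z) := by
    intro z
    by_cases hz : s z = z
    · rw [hz]
      by_contra hne
      have h4 : s' (w z) ≠ w z := fun h => hne h.symm
      obtain ⟨i, hi, hi2⟩ := (h1' _).1 h4
      rw [← hw i hi] at hi2
      have h5 := w.injective hi2
      exact ((h1 z).2 ⟨i, hi, h5⟩) hz
    · obtain ⟨i, hi, rfl⟩ := (h1 z).1 hz
      have e1 : s ((s ^ i) x) = (s ^ (i + 1)) x := by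
        rw [pow_succ']; rfl
      have e2 : s' ((s' ^ i) x') = (s' ^ (i + 1)) x' := by
        rw [pow_succ']; rfl
      rw [hw i hi, e1, e2]
      by_cases hi1 : i + 1 < q
      · exact hw _ hi1
      · have hi2 : i + 1 = q := by omega
        rw [hi2, h3, h3']
        simpa using hw 0 hpos
  ext y
  rw [Equiv.Perm.mul_apply, Equiv.Perm.mul_apply, key, ← Equiv.Perm.mul_apply w, mul_inv_cancel]
  rfl

theorem exists_conj {Ω : Type} [Fintype Ω] [DecidableEq Ω] {q : ℕ}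
    (hcard : 2 * q + 2 ≤ Fintype.card Ω) {s₁ s₂ t₁ t₂ : Perm Ω} (hs₁ : s₁.IsCycle)
    (hs₁' : s₁.support.card = q) (hs₂ : s₂.IsCycle) (hs₂' : s₂.support.card = q)
    (hs : Equiv.Perm.Disjoint s₁ s₂) (ht₁ : t₁.IsCycle)
    (ht₁' : t₁.support.card = q) (ht₂ : t₂.IsCycle) (ht₂' : t₂.support.card = q)
    (ht : Equiv.Perm.Disjoint t₁ t₂) :
    ∃ w ∈ alternatingGroup Ω, w * s₁ * w⁻¹ = t₁ ∧ w * s₂ * w⁻¹ = t₂ := by
  have mk : ∀ {s₁ s₂ : Perm Ω}, s₁.IsCycle → s₁.support.card = q → s₂.IsCycle →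
      s₂.support.card = q → Equiv.Perm.Disjoint s₁ s₂ → ∀ x₁ x₂, s₁ x₁ ≠ x₁ → s₂ x₂ ≠ x₂ →
      ∃ f : (Fin q ⊕ Fin q) ↪ Ω, (∀ i : Fin q, f (Sum.inl i) = (s₁ ^ (i : ℕ)) x₁) ∧
        ∀ i : Fin q, f (Sum.inr i) = (s₂ ^ (i : ℕ)) x₂ := by
    intro s₁ s₂ hs₁ hs₁' hs₂ hs₂' hs x₁ x₂ hx₁ hx₂
    obtain ⟨h1, h2, h3⟩ := cyc_rep hs₁ hs₁' hx₁
    obtain ⟨h1', h2', h3'⟩ := cyc_rep hs₂ hs₂' hx₂
    have hdis : ∀ i j : Fin q, (s₁ ^ (i : ℕ)) x₁ ≠ (s₂ ^ (j : ℕ)) x₂ := by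
      intro i j h
      have a1 := (h1 _).2 ⟨i, i.2, rfl⟩
      have a2 := (h1' _).2 ⟨j, j.2, rfl⟩
      rw [← h] at a2
      rcases hs ((s₁ ^ (i : ℕ)) x₁) with h | h
      · exact a1 h
      · exact a2 h
    refine ⟨⟨Sum.elim (fun i : Fin q => (s₁ ^ (i : ℕ)) x₁) (fun i : Fin q => (s₂ ^ (i : ℕ)) x₂), ?_⟩,
      fun i => rfl, fun i => rfl⟩
    rintro (i | i) (j | j) h
    · exact congrArg Sum.inl (Fin.ext (h2 _ _ i.2 j.2 h))
    · exact absurd h (hdis i j)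
    · exact absurd h.symm (hdis j i)
    · exact congrArg Sum.inr (Fin.ext (h2' _ _ i.2 j.2 h))
  obtain ⟨x₁, hx₁, -⟩ := id hs₁
  obtain ⟨x₂, hx₂, -⟩ := id hs₂
  obtain ⟨y₁, hy₁, -⟩ := id ht₁
  obtain ⟨y₂, hy₂, -⟩ := id ht₂
  obtain ⟨f, hf1, hf2⟩ := mk hs₁ hs₁' hs₂ hs₂' hs x₁ x₂ hx₁ hx₂
  obtain ⟨g, hg1, hg2⟩ := mk ht₁ ht₁' ht₂ ht₂' ht y₁ y₂ hy₁ hy₂
  obtain ⟨w, hw, hw2⟩ := pla f g (by
    rw [Fintype.card_sum, Fintype.card_fin]; omega)
  refine ⟨w, hw, conj_cyc hs₁ hs₁' ht₁ ht₁' hx₁ hy₁ ?_, conj_cyc hs₂ hs₂' ht₂ ht₂' hx₂ hy₂ ?_⟩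
  · intro i hi
    have := hw2 (Sum.inl ⟨i, hi⟩)
    rwa [hf1, hg1] at this
  · intro i hi
    have := hw2 (Sum.inr ⟨i, hi⟩)
    rwa [hf2, hg2] at this

/-- transfer of the identity from one pair of disjoint `q`-cycles to another -/
theorem transfer {L Ω K V : Type} [Group L] [Fintype Ω] [DecidableEq Ω] [Field K]
    [AddCommGroup V] [Module K V] {ψ : L →* alternatingGroup Ω} {ρ : L →* Module.End K V} {q : ℕ}
    {c : Perm Ω → Module.End K V} (hψ : Function.Surjective ψ) (hc : CanLift ψ ρ q c)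
    (hcard : 2 * q + 2 ≤ Fintype.card Ω) {s₁ s₂ t₁ t₂ : Perm Ω} (hs₁ : s₁.IsCycle)
    (hs₁' : s₁.support.card = q) (hs₂ : s₂.IsCycle) (hs₂' : s₂.support.card = q)
    (hs : Equiv.Perm.Disjoint s₁ s₂) (ht₁ : t₁.IsCycle)
    (ht₁' : t₁.support.card = q) (ht₂ : t₂.IsCycle) (ht₂' : t₂.support.card = q)
    (ht : Equiv.Perm.Disjoint t₁ t₂)
    (hid : ∀ v : V, c s₁ (c s₂ v) - c s₁ v - c s₂ v + v = 0) :
    ∀ v : V, c t₁ (c t₂ v) - c t₁ v - c t₂ v + v = 0 := by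
  obtain ⟨w, hw, hw1, hw2⟩ := exists_conj hcard hs₁ hs₁' hs₂ hs₂' hs ht₁ ht₁' ht₂ ht₂' ht
  obtain ⟨x, hx⟩ := hψ ⟨w, hw⟩
  have hxw : (ψ x : Perm Ω) = w := by rw [hx]
  have k1 : ρ x * c s₁ = c t₁ * ρ x := by
    have := (hc s₁ hs₁ hs₁').2.2.2 x
    rw [hxw, hw1] at this
    exact this
  have k2 : ρ x * c s₂ = c t₂ * ρ x := by
    have := (hc s₂ hs₂ hs₂').2.2.2 x
    rw [hxw, hw2] at this
    exact this
  have k1' : ∀ u, c t₁ (ρ x u) = ρ x (c s₁ u) := fun u => (LinearMap.congr_fun k1 u).symm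
  have k2' : ∀ u, c t₂ (ρ x u) = ρ x (c s₂ u) := fun u => (LinearMap.congr_fun k2 u).symm
  intro v
  have hv : v = ρ x (ρ x⁻¹ v) := by
    rw [← Module.End.mul_apply, ← map_mul, mul_inv_cancel, map_one, Module.End.one_apply]
  rw [hv, k2', k1', k1', ← map_sub, ← map_sub, ← map_add, hid, map_zero]


/-- the powers of a factor and of the product agree at the points of the factor -/
theorem fac_pow {Ω : Type} [Fintype Ω] [DecidableEq Ω] {l : List (Perm Ω)}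
    (hl : l.Pairwise Equiv.Perm.Disjoint) {s : Perm Ω} (hs : s ∈ l) {x : Ω} (hx : s x ≠ x)
    (k : ℕ) : (s ^ k) x = (l.prod ^ k) x ∧ s ((s ^ k) x) ≠ (s ^ k) x := by
  induction k with
  | zero => exact ⟨rfl, hx⟩
  | succ k ih =>
    obtain ⟨h1, h2⟩ := ih
    have h3 : s ((s ^ k) x) = l.prod ((s ^ k) x) :=
      Equiv.Perm.eq_on_support_mem_disjoint hs hl _ (Equiv.Perm.mem_support.mpr h2)
    have h4 : (s ^ (k + 1)) x = s ((s ^ k) x) := by rw [pow_succ']; rfl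
    refine ⟨?_, ?_⟩
    · rw [h4, h3, h1, pow_succ']; rfl
    · rw [h4]
      exact fun h => h2 (s.injective h)

theorem pf_cd : T_C4 → T_C5 → T_C6 → T_C7 → T_H1 → T_H2 → T_H3 → T_H4 → T_CD := by
  intro hC4 hC5 hC6 hC7 hH1 hH2 hH3 hH4 e
  classical
  refine ⟨e * (e + 5) + 2 * e + 2, ?_⟩
  intro L Ω _ _ _ _ ψ K V _ _ _ _ ρ c q p a h hψ hV hscal hc hpair hq hrel
  obtain ⟨hqp, hq5, hqe, hpp, hpe, haq, hah, hh, ha1, hhz, hB⟩ := hpair
  -- root of unity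
  obtain ⟨ω, hω⟩ : ∃ ω : K, IsPrimitiveRoot ω q := by
    haveI : NeZero (q : K) := ⟨hq⟩
    exact HasEnoughRootsOfUnity.exists_primitiveRoot K q
  have hωq : ω ^ q = 1 := hω.pow_eq_one
  have hω1 : ω ≠ 1 := hω.ne_one hqp.one_lt
  -- the cycles
  obtain ⟨⟨l, hl1, hl2, hl3⟩, -⟩ := (Equiv.Perm.truncCycleFactors (ψ a : Perm Ω)).exists_rep
  have hψaq : (ψ a : Perm Ω) ^ q = 1 := by
    have h1 : ψ a ^ q = 1 := by rw [← map_pow, haq, map_one]
    have h2 : ((ψ a ^ q : alternatingGroup Ω) : Perm Ω) = 1 := by rw [h1]; rfl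
    simpa using h2
  have hcardl : ∀ s ∈ l, s.support.card = q := by
    intro s hs
    have hsc := hl2 s hs
    have h1 : s ^ q = 1 := by
      ext x
      by_cases hx : s x = x
      · rw [Equiv.Perm.pow_apply_eq_self_of_apply_eq_self hx q]; rfl
      · rw [(fac_pow hl3 hs hx q).1, hl1, hψaq]
    have h2 : orderOf s ∣ q := orderOf_dvd_of_pow_eq_one h1
    rcases (Nat.dvd_prime hqp).1 h2 with h3 | h3
    · exfalso
      rw [orderOf_eq_one_iff] at h3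
      exact hsc.ne_one h3
    · rw [← hsc.orderOf, h3]
  have hsum : (ψ a : Perm Ω).support.card = l.length * q := by
    rw [← hl1, Equiv.Perm.card_support_prod_list_of_pairwise_disjoint hl3]
    have h1 : l.map (Finset.card ∘ Equiv.Perm.support) = l.map (fun _ => q) :=
      List.map_congr_left (fun s hs => hcardl s hs)
    rw [h1]
    simp
  obtain ⟨m, hm⟩ : ∃ m, m = l.length := ⟨_, rfl⟩
  have hBa : e * (e + 5) + 2 * e + 2 ≤ (ψ a : Perm Ω).support.card := by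
    have h1 := hB 1 0 (by simpa using ha1)
    simpa using h1
  have hmq : q + 5 ≤ l.length := by
    by_contra hlt
    have h1 : l.length ≤ q + 4 := by omega
    rw [hsum] at hBa
    have h2 : l.length * q ≤ (q + 4) * q := Nat.mul_le_mul_right _ h1
    have h3 : (q + 4) * q ≤ (e + 4) * e := Nat.mul_le_mul (by omega) hqe
    nlinarith
  have hcardΩ : 2 * q + 2 ≤ Fintype.card Ω := by
    have h2 : (ψ a : Perm Ω).support.card ≤ Fintype.card Ω := Finset.card_le_univ _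
    have h3 : 2 * q ≤ 2 * e := by omega
    nlinarith
  have hcyc : Cyc q l.get := by
    refine ⟨fun i => ⟨hl2 _ (List.get_mem _ _), hcardl _ (List.get_mem _ _)⟩, ?_⟩
    intro i j hij
    rcases lt_or_gt_of_ne hij with h1 | h1
    · exact (List.pairwise_iff_get.1 hl3) i j h1
    · exact ((List.pairwise_iff_get.1 hl3) j i h1).symm
  have hprod : (ψ a : Perm Ω) = (List.ofFn l.get).prod := by
    rw [List.ofFn_get, hl1]
  obtain ⟨ζ, hζ⟩ := hC7 q l.length L Ω ψ K V ρ c ω l.get a hqp hV hscal hc hωq hω1 hq hcyc haq hprod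
  have hfix : ∀ v : V, ρ a v = v → ρ h v = v := by
    intro v hv
    have h1 : ∀ j : ℕ, ρ (a ^ j) v = v := by
      intro j
      induction j with
      | zero => simp
      | succ j ih => rw [pow_succ, map_mul, Module.End.mul_apply, hv, ih]
    have h2 := hrel v
    have h3 : (∑ j ∈ Finset.range q, ρ (a ^ j) v) = (q : K) • v := by
      rw [Finset.sum_congr rfl (fun j _ => h1 j), Finset.sum_const, Finset.card_range,
        Nat.cast_smul_eq_nsmul]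
    rw [h3, map_smul] at h2
    exact smul_right_injective V hq h2
  have hset : Setting q l.length ψ ρ c ω l.get a h ζ :=
    ⟨hqp, hq5, hmq, hψ, hV, hscal, hc, hωq, hω1, hq, hcyc, hah, hprod, hζ, hfix⟩
  intro s₁ s₂ hs₁ hs₁' hs₂ hs₂' hs
  by_contra hcon
  have hi0 : 0 < l.length := by omega
  have hi1 : 1 < l.length := by omega
  have hi2 : 2 < l.length := by omega
  have hi3 : 3 < l.length := by omega
  have hex : ∃ v : V, c (l.get ⟨0, hi0⟩) (c (l.get ⟨1, hi1⟩) v) - c (l.get ⟨0, hi0⟩) v -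
      c (l.get ⟨1, hi1⟩) v + v ≠ 0 := by
    by_contra h2
    push Not at h2
    exact hcon (transfer hψ hc hcardΩ (hcyc.1 _).1 (hcyc.1 _).2 (hcyc.1 _).1 (hcyc.1 _).2
      (hcyc.2 _ _ (by simp)) hs₁ hs₁' hs₂ hs₂' hs h2)
  obtain ⟨v, hv⟩ := hex
  have hT : ∀ i : Fin l.length, (c (l.get i)) ^ q = 1 := fun i =>
    (hc _ (hcyc.1 i).1 (hcyc.1 i).2).2.1
  have hTT : ∀ i j : Fin l.length, c (l.get i) * c (l.get j) = c (l.get j) * c (l.get i) := by
    intro i j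
    by_cases hij : i = j
    · rw [hij]
    · obtain ⟨⟨d, hd, z, hz, hcz⟩, -⟩ := hc _ (hcyc.1 i).1 (hcyc.1 i).2
      have h1 := (hc _ (hcyc.1 j).1 (hcyc.1 j).2).2.2.2 d
      have h2 : l.get i * l.get j * (l.get i)⁻¹ = l.get j := by
        rw [(hcyc.2 i j hij).commute.eq, mul_inv_cancel_right]
      rw [hd, h2] at h1
      rw [hcz, smul_mul_assoc, h1, mul_smul_comm]
  obtain ⟨χ, hχ, hχ0, hχ1⟩ := hC5 q l.length K V ω hqp hωq hω1 hq (fun i => c (l.get i)) hT hTT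
    ⟨0, hi0⟩ ⟨1, hi1⟩ v hv
  obtain ⟨μ, hμ0, hμs, k', l', hkl'⟩ := hC6 q l.length hqp hq5 (by omega) χ ⟨0, hi0⟩ ⟨1, hi1⟩
    (by simp) hχ0 hχ1 (-ζ)
  obtain ⟨χ', hχ', hχs, k₁, l₁, hkl⟩ : ∃ χ' : Fin l.length → ZMod q,
      Occ ω (fun i => c (l.get i)) χ' ∧ ζ + ∑ i, χ' i = 0 ∧ ∃ k l, χ' k ≠ χ' l := by
    have h1 := (hC4 q l.length L Ω ψ K V ρ c ω l.get χ hqp hq5 hψ hc hωq hω1 hcyc hχ).2 μ hμ0
      ⟨2, hi2⟩ ⟨3, hi3⟩ (by simp)
    rcases h1 with h1 | h1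
    · exact ⟨_, h1, by rw [hμs]; ring, k', l', hkl'⟩
    · refine ⟨_, h1, ?_, Equiv.swap ⟨2, hi2⟩ ⟨3, hi3⟩ k', Equiv.swap ⟨2, hi2⟩ ⟨3, hi3⟩ l', ?_⟩
      · rw [Equiv.sum_comp (Equiv.swap (⟨2, hi2⟩ : Fin l.length) ⟨3, hi3⟩) (fun i => μ i * χ i), hμs]
        ring
      · simpa using hkl'
  have hbase : ∀ i : Fin l.length, ∃ x, l.get i x ≠ x := fun i => by
    obtain ⟨x, hx, -⟩ := (hcyc.1 i).1
    exact ⟨x, hx⟩
  have hcomm : ∀ x, (ψ h : Perm Ω) ((ψ a : Perm Ω) x) = (ψ a : Perm Ω) ((ψ h : Perm Ω) x) := by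
    intro x
    have h1 : ψ h * ψ a = ψ a * ψ h := by rw [← map_mul, ← map_mul, hah]
    have h2 : (ψ h : Perm Ω) * (ψ a : Perm Ω) = (ψ a : Perm Ω) * (ψ h : Perm Ω) := by
      have := congrArg (fun z : alternatingGroup Ω => (z : Perm Ω)) h1
      simpa using this
    have := Equiv.Perm.congr_fun h2 x
    simpa using this
  have hcommk : ∀ (k : ℕ) (x : Ω), (ψ h : Perm Ω) (((ψ a : Perm Ω) ^ k) x) =
      ((ψ a : Perm Ω) ^ k) ((ψ h : Perm Ω) x) := by
    intro k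
    induction k with
    | zero => intro x; rfl
    | succ k ih =>
      intro x
      rw [pow_succ, Equiv.Perm.mul_apply, Equiv.Perm.mul_apply, ih, hcomm]
  -- the factors are permuted
  have hperm : ∀ (i : Fin l.length) (x : Ω), l.get i x ≠ x → ∃ j : Fin l.length,
      l.get j ((ψ h : Perm Ω) x) ≠ (ψ h : Perm Ω) x ∧
      (ψ h : Perm Ω) * l.get i * (ψ h : Perm Ω)⁻¹ = l.get j := by
    intro i x hx
    have h0 := (fac_pow hl3 (List.get_mem l i) hx 1).1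
    rw [hl1, pow_one, pow_one] at h0
    have h1 : (ψ a : Perm Ω) ((ψ h : Perm Ω) x) ≠ (ψ h : Perm Ω) x := by
      intro h2
      rw [← hcomm, ← h0] at h2
      exact hx ((ψ h : Perm Ω).injective h2)
    have h2 : (ψ h : Perm Ω) x ∈ l.prod.support := by
      rw [hl1]; exact Equiv.Perm.mem_support.mpr h1
    obtain ⟨f, hf, hfx⟩ := Equiv.Perm.exists_mem_support_of_mem_support_prod h2
    obtain ⟨j, hj⟩ := List.mem_iff_get.1 hf
    rw [Equiv.Perm.mem_support] at hfx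
    rw [← hj] at hfx
    refine ⟨j, hfx, ?_⟩
    refine conj_cyc (hcyc.1 i).1 (hcyc.1 i).2 (hcyc.1 j).1 (hcyc.1 j).2 hx hfx ?_
    intro k hk
    rw [(fac_pow hl3 (List.get_mem l i) hx k).1, (fac_pow hl3 (List.get_mem l j) hfx k).1, hl1,
      hcommk]
  by_cases hA : ∃ i j, i ≠ j ∧ (ψ h : Perm Ω) * l.get i * (ψ h : Perm Ω)⁻¹ = l.get j
  · exact hkl (hH1 q l.length L Ω ψ K V ρ c ω l.get a h ζ hset hA χ' hχ' hχs k₁ l₁)
  push Not at hA
  have hself : ∀ (i : Fin l.length), ∃ κ : ℕ, κ < q ∧ ∀ x ∈ (l.get i).support,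
      (ψ h : Perm Ω) x = (l.get i ^ κ) x := by
    intro i
    obtain ⟨x, hx⟩ := hbase i
    obtain ⟨j, hj1, hj2⟩ := hperm i x hx
    have hij : i = j := by
      by_contra hne
      exact hA i j hne hj2
    subst hij
    obtain ⟨r1, r2, r3⟩ := cyc_rep (hcyc.1 i).1 (hcyc.1 i).2 hx
    obtain ⟨κ, hκ, hκ2⟩ := (r1 _).1 hj1
    refine ⟨κ, hκ, ?_⟩
    intro z hz
    rw [Equiv.Perm.mem_support] at hz
    obtain ⟨k, hk, rfl⟩ := (r1 z).1 hz
    have e1 : (ψ h : Perm Ω) ((l.get i ^ k) x) = (l.get i ^ k) ((ψ h : Perm Ω) x) := by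
      rw [(fac_pow hl3 (List.get_mem l i) hx k).1, (fac_pow hl3 (List.get_mem l i) hj1 k).1, hl1,
        hcommk]
    rw [e1, ← hκ2, ← Equiv.Perm.mul_apply, ← Equiv.Perm.mul_apply, ← pow_add, ← pow_add, add_comm]
  choose κ hκ1 hκ2 using hself
  by_cases hne : ∃ i j, κ i ≠ κ j
  · exact hkl (hH2 q l.length L Ω ψ K V ρ c ω l.get a h ζ hset κ hκ1 hκ2 hne χ' hχ' hχs k₁ l₁)
  push Not at hne
  obtain ⟨κ₀, hκ₀⟩ : ∃ κ₀, κ₀ = κ ⟨0, hi0⟩ := ⟨_, rfl⟩
  have hκ₀q : κ₀ < q := by rw [hκ₀]; exact hκ1 _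
  have hκ3 : ∀ i, ∀ x ∈ (l.get i).support, (ψ h : Perm Ω) x = (l.get i ^ κ₀) x := by
    intro i x hx
    rw [hκ2 i x hx, hκ₀, hne i ⟨0, hi0⟩]
  have ht1 : a ^ (q - κ₀) * h ^ 1 ≠ 1 := by
    intro h1
    rw [pow_one] at h1
    apply hhz
    rw [← inv_eq_of_mul_eq_one_right h1]
    exact Subgroup.inv_mem _ (Subgroup.npow_mem_zpowers _ _)
  have hBt := hB (q - κ₀) 1 ht1
  have hψt : (ψ (a ^ (q - κ₀) * h ^ 1) : Perm Ω) = (ψ a : Perm Ω) ^ (q - κ₀) * (ψ h : Perm Ω) := by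
    rw [map_mul, map_pow, pow_one]; simp
  have hdisj : Disjoint (ψ a : Perm Ω).support (ψ (a ^ (q - κ₀) * h ^ 1) : Perm Ω).support := by
    rw [Finset.disjoint_left]
    intro x hx hx2
    rw [Equiv.Perm.mem_support] at hx2
    apply hx2
    rw [← hl1] at hx
    obtain ⟨f, hf, hfx⟩ := Equiv.Perm.exists_mem_support_of_mem_support_prod hx
    obtain ⟨i, hi⟩ := List.mem_iff_get.1 hf
    rw [← hi] at hfx
    have hfx' := Equiv.Perm.mem_support.1 hfx
    rw [hψt, Equiv.Perm.mul_apply, hκ3 i x hfx]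
    have h2 := (fac_pow hl3 (List.get_mem l i) hfx' κ₀).2
    rw [← hl1, ← (fac_pow hl3 (List.get_mem l i) h2 (q - κ₀)).1, ← Equiv.Perm.mul_apply,
      ← pow_add]
    have h3 : q - κ₀ + κ₀ = q := by omega
    rw [h3]
    exact (cyc_rep (hcyc.1 i).1 (hcyc.1 i).2 hfx').2.2
  have hcard2 : (ψ a : Perm Ω).support.card +
      (ψ (a ^ (q - κ₀) * h ^ 1) : Perm Ω).support.card ≤ Fintype.card Ω := by
    rw [← Finset.card_union_of_disjoint hdisj]
    exact Finset.card_le_univ _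
  have hcard3 : 2 * q + 2 + (ψ a : Perm Ω).support.card ≤ Fintype.card Ω := by
    have h3 : 2 * q ≤ 2 * e := by omega
    nlinarith
  have hneψ : (ψ h : Perm Ω) ≠ (ψ a : Perm Ω) ^ κ₀ := by
    intro h1
    have h2 : (ψ (a ^ (q - κ₀) * h ^ 1) : Perm Ω) = 1 := by
      rw [hψt, h1, ← pow_add]
      have h3 : q - κ₀ + κ₀ = q := by omega
      rw [h3, hψaq]
    rw [h2, Equiv.Perm.support_one, Finset.card_empty] at hBt
    omega
  have hout := hH4 q l.length L Ω ψ K V ρ c ω l.get a h ζ hset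
    (hH3 q l.length L Ω ψ K V ρ c ω l.get a h ζ hset κ₀ hκ3 hneψ hcard3)
  -- two disjoint cycles outside the support
  have hW : 2 * q ≤ ((ψ a : Perm Ω).support)ᶜ.card := by
    rw [Finset.card_compl]; omega
  obtain ⟨A, hA1, hA2⟩ := Finset.exists_subset_card_eq (show q ≤ ((ψ a : Perm Ω).support)ᶜ.card by omega)
  have hW2 : q ≤ (((ψ a : Perm Ω).support)ᶜ \ A).card := by
    rw [Finset.card_sdiff_of_subset hA1]; omega
  obtain ⟨A', hA1', hA2'⟩ := Finset.exists_subset_card_eq hW2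
  have hmk : ∀ A : Finset Ω, A.card = q → ∃ s : Perm Ω, s.IsCycle ∧ s.support = A := by
    intro A hA
    refine ⟨A.toList.formPerm, List.isCycle_formPerm (Finset.nodup_toList A) ?_, ?_⟩
    · rw [Finset.length_toList]; omega
    · rw [List.support_formPerm_of_nodup _ (Finset.nodup_toList A), Finset.toList_toFinset]
      intro x hx
      have := congrArg List.length hx
      rw [Finset.length_toList, List.length_singleton] at this
      omega
  obtain ⟨t₁, ht₁, ht₁'⟩ := hmk A hA2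
  obtain ⟨t₂, ht₂, ht₂'⟩ := hmk A' hA2'
  have hd12 : Equiv.Perm.Disjoint t₁ t₂ := by
    rw [Equiv.Perm.disjoint_iff_disjoint_support, ht₁', ht₂', Finset.disjoint_left]
    intro x hx hx'
    exact (Finset.mem_sdiff.1 (hA1' hx')).2 hx
  have hd1 : Equiv.Perm.Disjoint t₁ (ψ a : Perm Ω) := by
    rw [Equiv.Perm.disjoint_iff_disjoint_support, ht₁', Finset.disjoint_left]
    intro x hx hx'
    exact (Finset.mem_compl.1 (hA1 hx)) hx'
  have hd2 : Equiv.Perm.Disjoint t₂ (ψ a : Perm Ω) := by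
    rw [Equiv.Perm.disjoint_iff_disjoint_support, ht₂', Finset.disjoint_left]
    intro x hx hx'
    exact (Finset.mem_compl.1 (Finset.mem_sdiff.1 (hA1' hx)).1) hx'
  have hc1 : t₁.support.card = q := by rw [ht₁', hA2]
  have hc2 : t₂.support.card = q := by rw [ht₂', hA2']
  exact hcon (transfer hψ hc hcardΩ ht₁ hc1 ht₂ hc2 hd12 hs₁ hs₁' hs₂ hs₂' hs
    (hout t₁ t₂ ht₁ hc1 ht₂ hc2 hd12 hd1 hd2))

end Pool.Agent.H86.NY.CD
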