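import Pool.Agent.H11.NY.Targets

set_option autoImplicit false

open Equiv (Perm)

namespace Pool.Agent.H86.NY.P2

open Pool.Agent.H11.NY

theorem hpair_mono {L Ω : Type} [Group L] [Fintype Ω] [DecidableEq Ω]
    {ψ : L →* alternatingGroup Ω} {e B B' q p : ℕ} {a h : L} (hB : B' ≤ B)
    (h1 : HPair ψ e B q p a h) : HPair ψ e B' q p a h := by
  obtain ⟨hqp, hq5, hqe, hpp, hpe, haq, hah, hh, ha1, hhz, hB1⟩ := h1
  exact ⟨hqp, hq5, hqe, hpp, hpe, haq, hah, hh, ha1, hhz, fun i j hij =>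
    le_trans hB (hB1 i j hij)⟩

theorem pf_p2 : T_PA → T_PB → T_PC → T_P2 := by
  intro hPA hPB hPC e
  classical
  obtain ⟨B₁, hB₁⟩ := hPA e
  obtain ⟨B₂, hB₂⟩ := hPB e
  obtain ⟨B₃, hB₃⟩ := hPC e
  refine ⟨max B₁ (max B₂ B₃), ?_⟩
  intro L Ω _ _ _ _ ψ hψ hcomm hsol K V _ _ _ _ _ ρ hirr hall
  have m1 : B₁ ≤ max B₁ (max B₂ B₃) := le_max_left _ _
  have m2 : B₂ ≤ max B₁ (max B₂ B₃) := le_trans (le_max_left _ _) (le_max_right _ _)
  have m3 : B₃ ≤ max B₁ (max B₂ B₃) := le_trans (le_max_right _ _) (le_max_right _ _)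
  by_cases hs : Scal ρ ψ.ker
  · obtain ⟨q, p, a, h, hq2, hpair, hq, hp, hrel⟩ := hall 2 Nat.prime_two
    exact hB₃ L Ω ψ K V ρ q p a h hψ hs (hpair_mono m3 hpair) hq hrel
  · let S : Set (Subgroup L) := {M | M.Normal ∧ M ≤ ψ.ker ∧ ¬ Scal ρ M}
    have hne : S.Nonempty := ⟨ψ.ker, inferInstance, le_refl _, hs⟩
    obtain ⟨M, hM⟩ := (Set.toFinite S).exists_minimal hne
    obtain ⟨⟨h1, h2, h3⟩, hmin⟩ := hM
    have hmin' : ∀ M' : Subgroup L, M'.Normal → M' < M → Scal ρ M' := by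
      intro M' hM' hlt
      by_contra hns
      exact absurd (hmin ⟨hM', hlt.le.trans h2, hns⟩ hlt.le) (not_le_of_gt hlt)
    by_cases hab : ∀ x ∈ M, ∀ y ∈ M, ρ x * ρ y = ρ y * ρ x
    · refine hB₁ L Ω ψ hψ hcomm hsol K V ρ hirr M h1 h2 hab h3 ?_
      intro r hr
      obtain ⟨q, p, a, h, hq2, hpair, hq, hp, hrel⟩ := hall r hr
      exact ⟨q, p, a, h, hq2, hpair_mono m1 hpair, hq, hp, hrel⟩
    · exfalso
      refine hB₂ L Ω ψ hψ hcomm hsol K V ρ hirr M h1 h2 h3 hmin' hab ?_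
      intro r hr
      obtain ⟨q, p, a, h, hq2, hpair, hq, hp, hrel⟩ := hall r hr
      exact ⟨q, p, a, h, hq2, hpair_mono m2 hpair, hq, hp, hrel⟩

end Pool.Agent.H86.NY.P2
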