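import Pool.Agent.H11.NY.Targets

set_option autoImplicit false

open Equiv (Perm)

namespace Pool.Agent.H86.NY.PC

open Pool.Agent.H11.NY

theorem pf_pc : T_C2 → T_CD → T_CE → T_PC := by
  intro hC2 hCD hCE e
  classical
  obtain ⟨B₀, hB₀⟩ := hCD e
  refine ⟨max B₀ (e + 5), ?_⟩
  intro L Ω _ _ _ _ ψ K V _ _ _ _ ρ q p a h hψ hscal hpair hq hrel
  by_cases hV : ∃ v : V, v ≠ 0
  · obtain ⟨hqp, hq5, hqe, hpp, hpe, haq, hah, hh, ha1, hhz, hB⟩ := hpair
    have hcard : q + 5 ≤ Fintype.card Ω := by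
      have h1 := hB 1 0 (by simpa using ha1)
      have h2 : (ψ (a ^ 1 * h ^ 0) : Perm Ω).support.card ≤ Fintype.card Ω :=
        Finset.card_le_univ _
      have h3 : e + 5 ≤ max B₀ (e + 5) := le_max_right _ _
      omega
    obtain ⟨c, hc⟩ := hC2 q L Ω ψ K V ρ hqp hq5 hcard hψ hV hscal
    refine hCE e q L Ω ψ K V ρ c hqp hq5 hqe hψ hV hscal hc ?_
    refine hB₀ L Ω ψ K V ρ c q p a h hψ hV hscal hc ?_ hq hrel
    exact ⟨hqp, hq5, hqe, hpp, hpe, haq, hah, hh, ha1, hhz, fun i j hij =>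
      le_trans (le_max_left _ _) (hB i j hij)⟩
  · push Not at hV
    intro Δ Δ' _ _ _ D D' _ _ d _ d' _ v
    exact hV _

end Pool.Agent.H86.NY.PC
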