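import Pool.Agent.H11.NY.Targets

set_option autoImplicit false

namespace Pool.Agent.H86.NY.OP

open Pool.Agent.H11.NY

theorem pf_op : T_OP := by
  intro L _ _ p N K₁ hp hN hK₁ hK₁N
  classical
  let S : Set (Subgroup L) := {K | K.Normal ∧ K₁ ≤ K ∧ K ≤ N ∧ ∀ x ∈ K, ∃ k : ℕ, x ^ (p ^ k) ∈ K₁}
  have hfin : S.Finite := Set.toFinite S
  have hne : S.Nonempty := ⟨K₁, hK₁, le_refl _, hK₁N, fun x hx => ⟨0, by simpa using hx⟩⟩
  obtain ⟨K₂, hK₂⟩ := hfin.exists_maximal hne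
  obtain ⟨⟨h1, h2, h3, h4⟩, hmax⟩ := hK₂
  refine ⟨K₂, h1, h2, h3, h4, ?_⟩
  intro A hA hKA hAN hAp
  have hAS : A ∈ S := by
    refine ⟨hA, h2.trans hKA, hAN, ?_⟩
    intro x hx
    obtain ⟨k, hk⟩ := hAp x hx
    obtain ⟨k', hk'⟩ := h4 _ hk
    refine ⟨k + k', ?_⟩
    rw [pow_add, pow_mul]
    exact hk'
  exact le_antisymm (hmax hAS hKA) hKA

end Pool.Agent.H86.NY.OP
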